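import Mathlib
import Pool.Agent.Helper814.Thue

/-!
# The fractional walk-nonrepetitive chromatic number of paths

`π_f^W(P_5) = 3` and `π_f^W(P_n) = 4` for every `n ≥ 6` (`P_n` has `n` vertices).
-/

namespace Pool.Agent.Results.MP_c566a2_co.PathsFractional

open SimpleGraph

/-- `c` is a `p`-tuple walk-nonrepetitive `q`-colouring of `G`: each vertex gets a `p`-subset of
`Fin q`, and for every walk `w 0, …, w (2l-1)` that is not boring and every choice of colours
`x i ∈ c (w i)`, the sequence `x 0, …, x (2l-1)` is not a repetition. -/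
def WalkNonrepetitive {V : Type} (G : SimpleGraph V) (p q : ℕ) (c : V → Finset (Fin q)) : Prop :=
  (∀ v, (c v).card = p) ∧
  ∀ (l : ℕ) (w : ℕ → V), 1 ≤ l → (∀ i, i + 1 < 2 * l → G.Adj (w i) (w (i + 1))) →
    (¬ ∀ i < l, w i = w (i + l)) →
    ∀ x : ℕ → Fin q, (∀ i < 2 * l, x i ∈ c (w i)) → ¬ ∀ i < l, x i = x (i + l)

/-- The fractional walk-nonrepetitive chromatic number. -/
noncomputable def pifW {V : Type} (G : SimpleGraph V) : ℝ :=
  sInf {r : ℝ | ∃ p q : ℕ, 1 ≤ p ∧ p < q ∧ r = (q : ℝ) / (p : ℝ) ∧
    ∃ c : V → Finset (Fin q), WalkNonrepetitive G p q c}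

section Lower

variable {V : Type} {G : SimpleGraph V} {p q : ℕ} {c : V → Finset (Fin q)}

theorem disj_adj (h : WalkNonrepetitive G p q c) {u v : V} (huv : G.Adj u v) :
    Disjoint (c u) (c v) := by
  rw [Finset.disjoint_left]
  intro a hau hav
  refine h.2 1 (fun i => if i = 0 then u else v) le_rfl ?_ ?_ (fun _ => a) ?_ (fun _ _ => rfl)
  · intro i hi
    obtain rfl : i = 0 := by omega
    simpa using huv
  · intro hb
    have := hb 0 (by norm_num)
    simp at this
    exact huv.ne this
  · intro i hi
    interval_cases i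
    · simpa using hau
    · simpa using hav

theorem disj_two (hp : 1 ≤ p) (h : WalkNonrepetitive G p q c) {u m v : V} (hum : G.Adj u m)
    (hmv : G.Adj m v) (huv : u ≠ v) : Disjoint (c u) (c v) := by
  rw [Finset.disjoint_left]
  intro a hau hav
  have hne : (c m).Nonempty := by
    rw [← Finset.card_pos, h.1 m]
    exact hp
  obtain ⟨b, hb⟩ := hne
  refine h.2 2 (fun i => if i = 0 then u else if i = 2 then v else m) (by norm_num) ?_ ?_
    (fun i => if i % 2 = 0 then a else b) ?_ ?_
  · intro i hi
    have hi' : i < 3 := by omega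
    interval_cases i
    · simpa using hum
    · simpa using hmv
    · simpa using hmv.symm
  · intro hb
    have := hb 0 (by norm_num)
    simp at this
    exact huv this
  · intro i hi
    have hi' : i < 4 := by omega
    interval_cases i
    · simpa using hau
    · simpa using hb
    · simpa using hav
    · simpa using hb
  · intro i hi
    interval_cases i <;> simp

theorem not_six (h : WalkNonrepetitive G p q c) (v : ℕ → V)
    (hv : ∀ i < 5, G.Adj (v i) (v (i + 1))) (hne : v 0 ≠ v 3)
    (h0 : ¬ Disjoint (c (v 0)) (c (v 3))) (h1 : ¬ Disjoint (c (v 1)) (c (v 4)))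
    (h2 : ¬ Disjoint (c (v 2)) (c (v 5))) : False := by
  rw [Finset.not_disjoint_iff] at h0 h1 h2
  obtain ⟨a, ha0, ha3⟩ := h0
  obtain ⟨b, hb1, hb4⟩ := h1
  obtain ⟨d, hd2, hd5⟩ := h2
  refine h.2 3 v (by norm_num) (fun i hi => hv i (by omega)) ?_
    (fun i => if i % 3 = 0 then a else if i % 3 = 1 then b else d) ?_ ?_
  · intro hb
    exact hne (hb 0 (by norm_num))
  · intro i hi
    have hi' : i < 6 := by omega
    interval_cases i
    · simpa using ha0
    · simpa using hb1
    · simpa using hd2
    · simpa using ha3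
    · simpa using hb4
    · simpa using hd5
  · intro i hi
    interval_cases i <;> simp

theorem three_le (hp : 1 ≤ p) (h : WalkNonrepetitive G p q c) {u m v : V} (hum : G.Adj u m)
    (hmv : G.Adj m v) (huv : u ≠ v) : 3 * p ≤ q := by
  have d1 := disj_adj h hum
  have d2 := disj_adj h hmv
  have d3 := disj_two hp h hum hmv huv
  have h1 : (c u ∪ c m).card = p + p := by
    rw [Finset.card_union_of_disjoint d1, h.1, h.1]
  have h2 : ((c u ∪ c m) ∪ c v).card = p + p + p := by
    rw [Finset.card_union_of_disjoint, h1, h.1]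
    rw [Finset.disjoint_union_left]
    exact ⟨d3, d2⟩
  have h3 := Finset.card_le_univ ((c u ∪ c m) ∪ c v)
  rw [h2, Fintype.card_fin] at h3
  omega

theorem four_le_of_disj (hp : 1 ≤ p) (h : WalkNonrepetitive G p q c) {u m v w : V}
    (hum : G.Adj u m) (hmv : G.Adj m v) (hvw : G.Adj v w) (huv : u ≠ v) (hmw : m ≠ w)
    (hd : Disjoint (c u) (c w)) : 4 * p ≤ q := by
  have d1 := disj_adj h hum
  have d2 := disj_adj h hmv
  have d3 := disj_two hp h hum hmv huv
  have d4 := disj_adj h hvw
  have d5 := disj_two hp h hmv hvw hmw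
  have h1 : (c u ∪ c m).card = p + p := by
    rw [Finset.card_union_of_disjoint d1, h.1, h.1]
  have h2 : ((c u ∪ c m) ∪ c v).card = p + p + p := by
    rw [Finset.card_union_of_disjoint, h1, h.1]
    rw [Finset.disjoint_union_left]
    exact ⟨d3, d2⟩
  have h3 : (((c u ∪ c m) ∪ c v) ∪ c w).card = p + p + p + p := by
    rw [Finset.card_union_of_disjoint, h2, h.1]
    rw [Finset.disjoint_union_left, Finset.disjoint_union_left]
    exact ⟨⟨hd, d5⟩, d4⟩
  have h4 := Finset.card_le_univ (((c u ∪ c m) ∪ c v) ∪ c w)
  rw [h3, Fintype.card_fin] at h4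
  omega

theorem four_le (hp : 1 ≤ p) (h : WalkNonrepetitive G p q c) (v : ℕ → V)
    (hv : ∀ i < 5, G.Adj (v i) (v (i + 1))) (hinj : Set.InjOn v (Set.Iio 6)) : 4 * p ≤ q := by
  have hne : ∀ i j, i < 6 → j < 6 → i ≠ j → v i ≠ v j := by
    intro i j hi hj hij heq
    exact hij (hinj hi hj heq)
  have step : ∀ i, i + 3 < 6 → Disjoint (c (v i)) (c (v (i + 3))) → 4 * p ≤ q := by
    intro i hi hd
    exact four_le_of_disj hp h (hv i (by omega)) (hv (i + 1) (by omega)) (hv (i + 2) (by omega))
      (hne _ _ (by omega) (by omega) (by omega)) (hne _ _ (by omega) (by omega) (by omega)) hd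
  by_contra hcon
  exact not_six h v hv (hne 0 3 (by norm_num) (by norm_num) (by norm_num))
    (fun hd => hcon (step 0 (by norm_num) hd)) (fun hd => hcon (step 1 (by norm_num) hd))
    (fun hd => hcon (step 2 (by norm_num) hd))

end Lower

section Upper

/-- Discrete intermediate value theorem. -/
theorem ivt (W : ℕ → ℕ) (m : ℕ) (hW : ∀ i < m, W (i + 1) = W i + 1 ∨ W i = W (i + 1) + 1) (x : ℕ)
    (hx : (W 0 ≤ x ∧ x ≤ W m) ∨ (W m ≤ x ∧ x ≤ W 0)) : ∃ i ≤ m, W i = x := by
  induction m with
  | zero => exact ⟨0, le_rfl, by omega⟩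
  | succ m ih =>
    by_cases hxm : W (m + 1) = x
    · exact ⟨m + 1, le_rfl, hxm⟩
    · have h1 := hW m (by omega)
      obtain ⟨i, hi, hix⟩ := ih (fun i hi => hW i (by omega)) (by omega)
      exact ⟨i, by omega, hix⟩

theorem key {C : Type} (n : ℕ) (f : ℕ → C)
    (hpal : ∀ i, i + 2 < n → f i ≠ f (i + 2))
    (hsq : ∀ D, 0 < D → ∀ a, a + 2 * D ≤ n → ∃ t < D, f (a + t) ≠ f (a + D + t))
    (l : ℕ) (hl : 1 ≤ l) (W : ℕ → ℕ) (hWn : ∀ i < 2 * l, W i < n)
    (hW : ∀ i, i + 1 < 2 * l → W (i + 1) = W i + 1 ∨ W i = W (i + 1) + 1)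
    (hrep : ∀ i < l, f (W i) = f (W (i + l))) : ∀ i < l, W i = W (i + l) := by
  -- two neighbours of one vertex with the same colour coincide
  have hnb : ∀ a b, a < n → b < n → (a + 2 = b ∨ b + 2 = a) → f a ≠ f b := by
    intro a b ha hb hab heq
    rcases hab with h | h
    · subst h; exact hpal a hb heq
    · subst h; exact hpal b ha heq.symm
  by_contra hcon
  push Not at hcon
  obtain ⟨i0, hi0, hne0⟩ := hcon
  have heqv : ∀ i, i + 1 < l → (W i = W (i + l) ↔ W (i + 1) = W (i + 1 + l)) := by
    intro i hi
    have e : i + 1 + l = i + l + 1 := by omega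
    have s1 := hW i (by omega)
    have s2 := hW (i + l) (by omega)
    have r1 := hrep i (by omega)
    have r2 := hrep (i + 1) (by omega)
    have b1 := hWn i (by omega)
    have b2 := hWn (i + l) (by omega)
    have b3 := hWn (i + 1) (by omega)
    have b4 := hWn (i + l + 1) (by omega)
    rw [e] at r2 ⊢
    constructor
    · intro h
      by_contra hne
      exact hnb _ _ b3 b4 (by omega) r2
    · intro h
      by_contra hne
      exact hnb _ _ b1 b2 (by omega) r1
  have hall : ∀ i < l, W i ≠ W (i + l) := by
    have h0 : ∀ i < l, (W 0 = W (0 + l) ↔ W i = W (i + l)) := by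
      intro i
      induction i with
      | zero => intro _; rfl
      | succ i ih =>
        intro hi
        exact (ih (by omega)).trans (heqv i hi)
    intro i hi h
    exact hne0 ((h0 i0 hi0).mp ((h0 i hi).mpr h))
  -- the two halves of the walk are translates or reflections of each other
  have hshape : (∀ i < l, W (i + l) + W 0 = W l + W i) ∨ (∀ i < l, W (i + l) + W i = W l + W 0) := by
    have hstep : ∀ i, i + 2 < l → (W (i + 2) = W i ↔ W (i + 2 + l) = W (i + l)) := by
      intro i hi
      have e1 : i + 2 + l = i + l + 1 + 1 := by omega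
      have s1 := hW i (by omega)
      have s1' := hW (i + 1) (by omega)
      have e5 : i + 1 + 1 = i + 2 := by omega
      rw [e5] at s1'
      have s2 := hW (i + l) (by omega)
      have s2' := hW (i + l + 1) (by omega)
      have r1 := hrep i (by omega)
      have r2 := hrep (i + 2) (by omega)
      have b1 := hWn i (by omega)
      have b2 := hWn (i + l) (by omega)
      have b3 := hWn (i + 2) (by omega)
      have b4 := hWn (i + 2 + l) (by omega)
      constructor
      · intro h
        by_contra hne
        rw [h] at r2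
        exact hnb _ _ b2 b4 (by rw [e1] at hne ⊢; omega) (r1.symm.trans r2)
      · intro h
        by_contra hne
        rw [h] at r2
        exact hnb _ _ b1 b3 (by omega) (r1.trans r2.symm)
    rcases Nat.lt_or_ge 1 l with h1 | h1
    · have s0 := hW 0 (by omega)
      have sl := hW l (by omega)
      have e1 : 0 + 1 = 1 := rfl
      rw [e1] at s0
      by_cases hdir : W (1 + l) + W 0 = W l + W 1
      · left
        intro i
        induction i using Nat.strong_induction_on with
        | _ i ih =>
          intro hi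
          rcases Nat.lt_or_ge i 2 with hi2 | hi2
          · interval_cases i
            · simp
            · exact hdir
          · obtain ⟨j, rfl⟩ : ∃ j, i = j + 2 := ⟨i - 2, by omega⟩
            have i1 := ih j (by omega) (by omega)
            have i2 := ih (j + 1) (by omega) (by omega)
            have hs := hstep j hi
            have t1 := hW j (by omega)
            have t2 := hW (j + 1) (by omega)
            have t3 := hW (j + l) (by omega)
            have t4 := hW (j + l + 1) (by omega)
            have e3 : j + 1 + l = j + l + 1 := by omega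
            have e4 : j + 2 + l = j + l + 1 + 1 := by omega
            have e5 : j + 1 + 1 = j + 2 := by omega
            rw [e5] at t2
            rw [e3] at i2
            rw [e4] at hs ⊢
            by_cases hb : W (j + 2) = W j
            · have := hs.mp hb
              omega
            · have hb' : W (j + l + 1 + 1) ≠ W (j + l) := fun h => hb (hs.mpr h)
              omega
      · right
        have hdir' : W (1 + l) + W 1 = W l + W 0 := by
          have e : 1 + l = l + 1 := by omega
          rw [e] at hdir ⊢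
          omega
        intro i
        induction i using Nat.strong_induction_on with
        | _ i ih =>
          intro hi
          rcases Nat.lt_or_ge i 2 with hi2 | hi2
          · interval_cases i
            · simp
            · exact hdir'
          · obtain ⟨j, rfl⟩ : ∃ j, i = j + 2 := ⟨i - 2, by omega⟩
            have i1 := ih j (by omega) (by omega)
            have i2 := ih (j + 1) (by omega) (by omega)
            have hs := hstep j hi
            have t1 := hW j (by omega)
            have t2 := hW (j + 1) (by omega)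
            have t3 := hW (j + l) (by omega)
            have t4 := hW (j + l + 1) (by omega)
            have e3 : j + 1 + l = j + l + 1 := by omega
            have e4 : j + 2 + l = j + l + 1 + 1 := by omega
            have e5 : j + 1 + 1 = j + 2 := by omega
            rw [e5] at t2
            rw [e3] at i2
            rw [e4] at hs ⊢
            by_cases hb : W (j + 2) = W j
            · have := hs.mp hb
              omega
            · have hb' : W (j + l + 1 + 1) ≠ W (j + l) := fun h => hb (hs.mpr h)
              omega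
    · obtain rfl : l = 1 := by omega
      left
      intro i hi
      obtain rfl : i = 0 := by omega
      simp
  -- the first half visits every position between its ends
  have hlast : W l = W (l - 1) + 1 ∨ W (l - 1) = W l + 1 := by
    have := hW (l - 1) (by omega)
    have e : l - 1 + 1 = l := by omega
    rwa [e] at this
  have hivt : ∀ x, ((W 0 ≤ x ∧ x ≤ W (l - 1)) ∨ (W (l - 1) ≤ x ∧ x ≤ W 0)) →
      ∃ i < l, W i = x := by
    intro x hx
    obtain ⟨i, hi, hix⟩ := ivt W (l - 1) (fun i hi => hW i (by omega)) x hx
    exact ⟨i, by omega, hix⟩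
  have hAB : W 0 ≠ W l := by
    have := hall 0 (by omega)
    simpa using this
  have hA : W 0 < n := hWn 0 (by omega)
  have hB : W l < n := hWn l (by omega)
  rcases hshape with hs | hs
  · rcases Nat.lt_or_ge (W 0) (W l) with hlt | hge
    · -- a square to the right
      have hf : ∀ x, W 0 ≤ x → x < W l → f x = f (x + (W l - W 0)) ∧ x + (W l - W 0) < n := by
        intro x h1 h2
        obtain ⟨i, hi, hix⟩ := hivt x (by omega)
        have h3 := hs i hi
        have h4 := hrep i hi
        have h5 := hWn (i + l) (by omega)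
        have e : W (i + l) = x + (W l - W 0) := by omega
        rw [hix, e] at h4
        rw [e] at h5
        exact ⟨h4, h5⟩
      obtain ⟨t, ht, hne⟩ := hsq (W l - W 0) (by omega) (W 0) (by
        have := (hf (W l - 1) (by omega) (by omega)).2
        omega)
      apply hne
      have h1 := (hf (W 0 + t) (by omega) (by omega)).1
      rw [h1]
      congr 1
      omega
    · -- a square to the left
      have hf : ∀ x, W l < x → x ≤ W 0 → f x = f (x - (W 0 - W l)) ∧ W 0 - W l ≤ x := by
        intro x h1 h2
        obtain ⟨i, hi, hix⟩ := hivt x (by omega)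
        have h3 := hs i hi
        have h4 := hrep i hi
        have e : W (i + l) = x - (W 0 - W l) := by omega
        rw [hix, e] at h4
        exact ⟨h4, by omega⟩
      have hD := (hf (W l + 1) (by omega) (by omega)).2
      obtain ⟨t, ht, hne⟩ := hsq (W 0 - W l) (by omega) (W l + 1 - (W 0 - W l)) (by omega)
      apply hne
      have h1 := (hf (W l + 1 + t) (by omega) (by omega)).1
      have e1 : W l + 1 - (W 0 - W l) + (W 0 - W l) + t = W l + 1 + t := by omega
      have e2 : W l + 1 - (W 0 - W l) + t = W l + 1 + t - (W 0 - W l) := by omega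
      rw [e1, e2, h1]
  · -- reflections
    have hf : ∀ x, ((W 0 ≤ x ∧ x < W l) ∨ (W l < x ∧ x ≤ W 0)) → f x = f (W l + W 0 - x) := by
      intro x hx
      obtain ⟨i, hi, hix⟩ := hivt x (by omega)
      have h3 := hs i hi
      have h4 := hrep i hi
      have e : W (i + l) = W l + W 0 - x := by omega
      rwa [hix, e] at h4
    rcases Nat.even_or_odd' (W l + W 0) with ⟨m, hm | hm⟩
    · rcases Nat.lt_or_ge (W 0) (W l) with hlt | hge
      · have h1 := hf (m - 1) (by omega)
        exact hnb (m - 1) (W l + W 0 - (m - 1)) (by omega) (by omega) (by omega) h1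
      · have h1 := hf (m + 1) (by omega)
        exact hnb (m + 1) (W l + W 0 - (m + 1)) (by omega) (by omega) (by omega) h1
    · rcases Nat.lt_or_ge (W 0) (W l) with hlt | hge
      · have h1 := hf m (by omega)
        obtain ⟨t, ht, hne⟩ := hsq 1 (by norm_num) m (by omega)
        obtain rfl : t = 0 := by omega
        apply hne
        have e : m + 1 + 0 = W l + W 0 - m := by omega
        rw [e, add_zero, h1]
      · have h1 := hf (m + 1) (by omega)
        obtain ⟨t, ht, hne⟩ := hsq 1 (by norm_num) m (by omega)
        obtain rfl : t = 0 := by omega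
        apply hne
        have e : W l + W 0 - (m + 1) = m := by omega
        rw [e] at h1
        rw [add_zero, add_zero, h1]

theorem adj_path {n : ℕ} {u v : Fin n} (h : (pathGraph n).Adj u v) :
    v.val = u.val + 1 ∨ u.val = v.val + 1 := by
  rw [pathGraph_adj] at h
  omega

theorem walkNonrep_of_word (n q : ℕ) (f : ℕ → Fin q)
    (hpal : ∀ i, i + 2 < n → f i ≠ f (i + 2))
    (hsq : ∀ D, 0 < D → ∀ a, a + 2 * D ≤ n → ∃ t < D, f (a + t) ≠ f (a + D + t)) :
    WalkNonrepetitive (pathGraph n) 1 q (fun v => {f v.val}) := by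
  refine ⟨fun v => Finset.card_singleton _, ?_⟩
  intro l w hl hw hnb x hx hrep
  apply hnb
  have h := key n f hpal hsq l hl (fun i => (w i).val) (fun i _ => (w i).isLt)
    (fun i hi => adj_path (hw i hi)) (fun i hi => by
      have h1 := hx i (by omega)
      have h2 := hx (i + l) (by omega)
      rw [Finset.mem_singleton] at h1 h2
      show f (w i).val = f (w (i + l)).val
      rw [← h1, ← h2]
      exact hrep i hi)
  intro i hi
  exact Fin.ext (h i hi)

open Pool.Agent.Helper814.Thue in
/-- The word over four letters: a letter `3` after every two letters of a square-free ternary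
word. -/
def g (m : ℕ) : ℕ := if m % 3 = 2 then 3 else F (2 * (m / 3) + m % 3)

open Pool.Agent.Helper814.Thue in
theorem g_lt (m : ℕ) : g m < 4 := by
  unfold g
  split_ifs
  · norm_num
  · have := F_lt (2 * (m / 3) + m % 3)
    omega

open Pool.Agent.Helper814.Thue in
theorem g_pal (m : ℕ) : g m ≠ g (m + 2) := by
  have h1 := F_lt (2 * (m / 3) + m % 3)
  have h2 := F_lt (2 * ((m + 2) / 3) + (m + 2) % 3)
  unfold g
  have h3 : m % 3 = 0 ∨ m % 3 = 1 ∨ m % 3 = 2 := by omega
  rcases h3 with h | h | h
  · have h4 : (m + 2) % 3 = 2 := by omega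
    rw [if_neg (by omega), if_pos h4]
    omega
  · have h4 : (m + 2) % 3 = 0 := by omega
    rw [if_neg (by omega), if_neg (by omega)]
    have e : 2 * ((m + 2) / 3) + (m + 2) % 3 = 2 * (m / 3) + m % 3 + 1 := by omega
    rw [e]
    exact F_ne _
  · have h4 : (m + 2) % 3 = 1 := by omega
    rw [if_pos h, if_neg (by omega)]
    omega

open Pool.Agent.Helper814.Thue in
theorem g_adj (m : ℕ) : g m ≠ g (m + 1) := by
  have h1 := F_lt (2 * (m / 3) + m % 3)
  have h2 := F_lt (2 * ((m + 1) / 3) + (m + 1) % 3)
  unfold g
  have h3 : m % 3 = 0 ∨ m % 3 = 1 ∨ m % 3 = 2 := by omega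
  rcases h3 with h | h | h
  · have h4 : (m + 1) % 3 = 1 := by omega
    rw [if_neg (by omega), if_neg (by omega)]
    have e : 2 * ((m + 1) / 3) + (m + 1) % 3 = 2 * (m / 3) + m % 3 + 1 := by omega
    rw [e]
    exact F_ne _
  · have h4 : (m + 1) % 3 = 2 := by omega
    rw [if_neg (by omega), if_pos h4]
    omega
  · have h4 : (m + 1) % 3 = 0 := by omega
    rw [if_pos h, if_neg (by omega)]
    omega

open Pool.Agent.Helper814.Thue in
theorem g_sq (D : ℕ) (hD : 0 < D) (a : ℕ) : ∃ t < D, g (a + t) ≠ g (a + D + t) := by
  by_contra hcon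
  push Not at hcon
  rcases Nat.lt_or_ge D 3 with h3 | h3
  · interval_cases D
    · exact g_adj a (by simpa using hcon 0 (by norm_num))
    · exact g_pal a (by simpa using hcon 0 (by norm_num))
  · -- the period is a multiple of three
    have hmod : D % 3 = 0 := by
      obtain ⟨t, ht, hat⟩ : ∃ t < 3, (a + t) % 3 = 2 := by
        have h := Nat.mod_lt a (show 0 < 3 by norm_num)
        exact ⟨2 - a % 3, by omega, by omega⟩
      have h1 := hcon t (by omega)
      unfold g at h1
      rw [if_pos hat] at h1
      by_contra hne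
      rw [if_neg (by omega)] at h1
      have := F_lt (2 * ((a + D + t) / 3) + (a + D + t) % 3)
      omega
    obtain ⟨d, rfl⟩ : ∃ d, D = 3 * d := ⟨D / 3, by omega⟩
    obtain ⟨t, ht, hne⟩ := sqfree (2 * d) (by omega) (2 * (a / 3) + min (a % 3) 2)
    apply hne
    set b := 2 * (a / 3) + min (a % 3) 2 with hb
    have hge : a ≤ 3 * ((b + t) / 2) + (b + t) % 2 := by omega
    have hlt : 3 * ((b + t) / 2) + (b + t) % 2 < a + 3 * d := by omega
    have h1 := hcon (3 * ((b + t) / 2) + (b + t) % 2 - a) (by omega)
    have e1 : a + (3 * ((b + t) / 2) + (b + t) % 2 - a) = 3 * ((b + t) / 2) + (b + t) % 2 := by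
      omega
    have e2 : a + 3 * d + (3 * ((b + t) / 2) + (b + t) % 2 - a) =
        3 * ((b + t) / 2 + d) + (b + t) % 2 := by omega
    rw [e1, e2] at h1
    unfold g at h1
    rw [if_neg (by omega), if_neg (by omega)] at h1
    have e3 : 2 * ((3 * ((b + t) / 2) + (b + t) % 2) / 3) + (3 * ((b + t) / 2) + (b + t) % 2) % 3
        = b + t := by omega
    have e4 : 2 * ((3 * ((b + t) / 2 + d) + (b + t) % 2) / 3) +
        (3 * ((b + t) / 2 + d) + (b + t) % 2) % 3 = b + 2 * d + t := by omega
    rw [e3, e4] at h1
    exact h1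

end Upper

theorem le_pifW {V : Type} {G : SimpleGraph V} {m : ℕ}
    (hne : ∃ p q : ℕ, 1 ≤ p ∧ p < q ∧ ∃ c : V → Finset (Fin q), WalkNonrepetitive G p q c)
    (h : ∀ p q : ℕ, 1 ≤ p → ∀ c : V → Finset (Fin q), WalkNonrepetitive G p q c → m * p ≤ q) :
    (m : ℝ) ≤ pifW G := by
  apply le_csInf
  · obtain ⟨p, q, hp, hpq, c, hc⟩ := hne
    exact ⟨_, p, q, hp, hpq, rfl, c, hc⟩
  · rintro r ⟨p, q, hp, hpq, rfl, c, hc⟩
    have h1 := h p q hp c hc
    have hp' : (0 : ℝ) < p := by exact_mod_cast hp
    rw [le_div_iff₀ hp']
    exact_mod_cast h1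

theorem pifW_le {V : Type} {G : SimpleGraph V} {q : ℕ} (hq : 1 < q)
    (h : ∃ c : V → Finset (Fin q), WalkNonrepetitive G 1 q c) : pifW G ≤ q := by
  apply csInf_le
  · refine ⟨0, ?_⟩
    rintro r ⟨p, q, hp, hpq, rfl, c, hc⟩
    positivity
  · obtain ⟨c, hc⟩ := h
    exact ⟨1, q, le_rfl, hq, by simp, c, hc⟩

/-- The `i`-th vertex of the path `P_n`. -/
def vx (n : ℕ) (hn : 0 < n) (i : ℕ) : Fin n := ⟨i % n, Nat.mod_lt _ hn⟩

theorem vx_adj (n : ℕ) (hn : 0 < n) (i : ℕ) (hi : i + 1 < n) :
    (pathGraph n).Adj (vx n hn i) (vx n hn (i + 1)) := by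
  rw [pathGraph_adj]
  left
  simp only [vx]
  rw [Nat.mod_eq_of_lt (by omega), Nat.mod_eq_of_lt hi]

/-- The word `0, 1, 2, 0, 1`. -/
def f5 (i : ℕ) : Fin 3 := ⟨i % 3, Nat.mod_lt _ (by norm_num)⟩

/-- **Theorem.** `π_f^W(P_5) = 3` and `π_f^W(P_n) = 4` for all `n ≥ 6`. -/
theorem result : pifW (pathGraph 5) = 3 ∧ ∀ n : ℕ, 6 ≤ n → pifW (pathGraph n) = 4 := by
  constructor
  · have hcol : WalkNonrepetitive (pathGraph 5) 1 3 (fun v => {f5 v.val}) := by
      apply walkNonrep_of_word
      · intro i hi h
        have := congrArg Fin.val h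
        simp only [f5] at this
        omega
      · intro D hD a ha
        have hD2 : D < 3 := by omega
        refine ⟨0, hD, fun h => ?_⟩
        have := congrArg Fin.val h
        simp only [f5] at this
        interval_cases D <;> omega
    apply le_antisymm
    · have := pifW_le (G := pathGraph 5) (q := 3) (by norm_num) ⟨_, hcol⟩
      simpa using this
    · have := le_pifW (G := pathGraph 5) (m := 3) ⟨1, 3, le_rfl, by norm_num, _, hcol⟩
        (fun p q hp c hc => three_le hp hc (vx_adj 5 (by norm_num) 0 (by norm_num))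
          (vx_adj 5 (by norm_num) 1 (by norm_num)) (by decide))
      simpa using this
  · intro n hn
    have hcol : WalkNonrepetitive (pathGraph n) 1 4 (fun v => {(⟨g v.val, g_lt _⟩ : Fin 4)}) := by
      apply walkNonrep_of_word n 4 (fun i => ⟨g i, g_lt i⟩)
      · intro i hi h
        exact g_pal i (congrArg Fin.val h)
      · intro D hD a ha
        obtain ⟨t, ht, hne⟩ := g_sq D hD a
        exact ⟨t, ht, fun h => hne (congrArg Fin.val h)⟩
    apply le_antisymm
    · have := pifW_le (G := pathGraph n) (q := 4) (by norm_num) ⟨_, hcol⟩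
      simpa using this
    · have := le_pifW (G := pathGraph n) (m := 4) ⟨1, 4, le_rfl, by norm_num, _, hcol⟩
        (fun p q hp c hc => four_le hp hc (vx n (by omega))
          (fun i hi => vx_adj n (by omega) i (by omega)) (by
            intro i hi j hj hij
            simp only [Set.mem_Iio] at hi hj
            have := congrArg Fin.val hij
            simp only [vx] at this
            rw [Nat.mod_eq_of_lt (by omega), Nat.mod_eq_of_lt (by omega)] at this
            exact this))
      simpa using this

end Pool.Agent.Results.MP_c566a2_co.PathsFractional
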